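import Mathlib
import Pool.Agent.H6.MFam

namespace Pool.Agent.Results.MP_221c76_co.Exists

open Function Pool.Agent.H6.MFam
open scoped Classical ENNReal

/-- A graph, possibly infinite, with loops and multiple edges allowed. -/
structure MG where
  V : Type
  E : Type
  ends : E → Sym2 V

/-- `(φ, ψ)` is an isomorphism from `H` onto a subgraph of `G`. -/
def Emb (H G : MG) (φ : H.V → G.V) (ψ : H.E → G.E) : Prop :=
  Injective φ ∧ Injective ψ ∧ ∀ e, G.ends (ψ e) = (H.ends e).map φ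

/-- Isomorphism of graphs. -/
def Iso (H G : MG) : Prop := ∃ φ ψ, Emb H G φ ψ ∧ Surjective φ ∧ Surjective ψ

/-- The edge sets of the subgraphs of `Γ` isomorphic to a member of `P`. -/
def circuits (P : MG → Prop) (Γ : MG) : Set (Set Γ.E) :=
  {C | ∃ H, P H ∧ ∃ φ ψ, Emb H Γ φ ψ ∧ C = Set.range ψ}

/-- The circuit axioms (C1) and (C2). -/
def IsCircuitFamily {E : Type} (𝒞 : Set (Set E)) : Prop :=
  (∀ C ∈ 𝒞, ∀ D ∈ 𝒞, ¬ C ⊂ D) ∧
    ∀ C ∈ 𝒞, ∀ D ∈ 𝒞, C ≠ D → ∀ e ∈ C ∩ D, ∃ B ∈ 𝒞, B ⊆ (C ∪ D) \ {e}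

/-- Subdivide the edge `e = uv` by the new vertex `none`. -/
noncomputable def subdiv (G : MG) (e : G.E) (u v : G.V) : MG where
  V := Option G.V
  E := Option G.E
  ends
    | none => s(some u, none)
    | some f => if f = e then s(none, some v) else (G.ends f).map some

/-- `H` is isomorphic to `G` or arises from `G` by subdividing one edge. -/
def Step (G H : MG) : Prop := Iso G H ∨ ∃ e u v, G.ends e = s(u, v) ∧ H = subdiv G e u v

/-- Both graphs arise from a common graph by finitely many subdivisions. -/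
def Homeo (G H : MG) : Prop :=
  ∃ K, Relation.ReflTransGen Step K G ∧ Relation.ReflTransGen Step K H

def P (G : MG) : Prop := Good G.ends Set.univ ∧ ∀ v, ∃ e, v ∈ G.ends e

def restrict (Γ : MG) (C : Set Γ.E) : MG where
  V := {v // ∃ e ∈ C, v ∈ Γ.ends e}
  E := C
  ends e := (Γ.ends e).attachWith fun _ h => ⟨e, e.2, h⟩

lemma restrict_emb (Γ : MG) (C : Set Γ.E) : Emb (restrict Γ C) Γ Subtype.val Subtype.val :=
  ⟨Subtype.val_injective, Subtype.val_injective, fun _ => (Sym2.attachWith_map_subtypeVal _).symm⟩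

lemma restrict_P {Γ : MG} {C : Set Γ.E} (h : Good Γ.ends C) : P (restrict Γ C) := by
  obtain ⟨a, b, c⟩ := restrict_emb Γ C
  refine ⟨(good_emb a b c).mp ((Set.image_univ.trans Subtype.range_coe).symm ▸ h), fun ⟨v, e, h1, h2⟩ => ⟨⟨e, h1⟩, ?_⟩⟩
  obtain ⟨w, w1, rfl⟩ := Sym2.mem_map.mp (c ⟨e, h1⟩ ▸ h2)
  exact w1

lemma circ (Γ : MG) (C : Set Γ.E) : C ∈ circuits P Γ ↔ Good Γ.ends C :=
  ⟨fun ⟨_, h, _, _, ⟨a, b, c⟩, e⟩ => e ▸ Set.image_univ ▸ (good_emb a b c).mpr h.1, fun h =>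
    ⟨_, restrict_P h, _, _, restrict_emb Γ C, Subtype.range_coe.symm⟩⟩

noncomputable def mult {V : Type} (v : V) : Sym2 V → ℝ≥0∞ :=
  Sym2.lift ⟨fun a b => (if v = a then 1 else 0) + if v = b then 1 else 0, fun _ _ => add_comm _ _⟩

noncomputable def deg (G : MG) (v : G.V) : ℝ≥0∞ := ∑' e, mult v (G.ends e)

lemma mult_map {V W : Type} {φ : V → W} (h : Injective φ) (v : V) (s : Sym2 V) :
    mult (φ v) (s.map φ) = mult v s := by
  induction s using Sym2.ind
  simp [mult, h.eq_iff]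

lemma mult_zero {V : Type} {v : V} {s : Sym2 V} (h : v ∉ s) : mult v s = 0 := by
  induction s using Sym2.ind
  simp_all [mult]

lemma mult_le {V : Type} (v : V) (s : Sym2 V) : mult v s ≤ 2 := by
  induction s using Sym2.ind
  rw [← one_add_one_eq_two]
  exact add_le_add (by split_ifs <;> simp) (by split_ifs <;> simp)

lemma tsum_opt {β : Type} (f : Option β → ℝ≥0∞) : ∑' x, f x = f none + ∑' b, f (some b) := by
  rw [ENNReal.tsum_eq_add_tsum_ite none, ← (Option.some_injective β).tsum_eq (by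
    rintro (_ | x) <;> simp)]
  simp

lemma step {G H : MG} (h : Step G H) :
    (P G ↔ P H) ∧ ∀ n : ℕ, 3 ≤ n → ((∃ v, n ≤ deg G v) ↔ ∃ v, n ≤ deg H v) := by
  rcases h with ⟨φ, ψ, ⟨a, b, c⟩, s, t⟩ | ⟨e, u, v, h, rfl⟩
  · refine ⟨and_congr ?_ ?_, fun n _ => ?_⟩
    · rw [← good_emb a b c, Set.image_univ, t.range_eq]
    · simp only [s.forall, t.exists, c, Sym2.mem_map, a.eq_iff, exists_eq_right]
    · simp only [s.exists, deg, ← (Equiv.ofBijective ψ ⟨b, t⟩).tsum_eq, Equiv.ofBijective_apply, c,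
        mult_map a]
  have h1 : (subdiv G e u v).ends (some e) = s(none, some v) := if_pos rfl
  have h2 : ∀ f ≠ e, (subdiv G e u v).ends (some f) = (G.ends f).map some := fun _ c => if_neg c
  refine ⟨and_congr (good_sub h rfl h1 h2).symm ⟨?_, fun H x => ?_⟩, fun n hn => ?_⟩
  · rintro H (_ | x)
    · exact ⟨none, Sym2.mem_mk_right _ _⟩
    obtain ⟨f, hf⟩ := H x
    by_cases c : f = e
    · rw [c, h, Sym2.mem_iff] at hf
      rcases hf with rfl | rfl
      · exact ⟨none, Sym2.mem_mk_left _ _⟩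
      · exact ⟨some e, h1 ▸ Sym2.mem_mk_right _ _⟩
    · exact ⟨some f, h2 f c ▸ Sym2.mem_map.mpr ⟨x, hf, rfl⟩⟩
  · obtain ⟨_ | f, hf⟩ := H (some x)
    · have : some x ∈ s(some u, none) := hf
      exact ⟨e, by simp_all⟩
    by_cases c : f = e
    · have : some x ∈ s(none, some v) := h1 ▸ c ▸ hf
      exact ⟨e, by simp_all⟩
    · have : some x ∈ (G.ends f).map some := h2 f c ▸ hf
      exact ⟨f, by simpa using this⟩
  have d : ∀ x : Option G.V, deg (subdiv G e u v) x = mult x s(some u, none) +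
      (mult x s(none, some v) + ∑' f, if f = e then 0 else mult x ((G.ends f).map some)) := by
    intro x
    refine (tsum_opt _).trans ?_
    rw [ENNReal.tsum_eq_add_tsum_ite e, h1]
    congr 2
    exact tsum_congr fun f => by split_ifs with c <;> [rfl; exact congrArg _ (h2 f c)]
  have d1 : ∀ x, deg (subdiv G e u v) (some x) = deg G x := fun x => by
    rw [d, deg, ENNReal.tsum_eq_add_tsum_ite (f := fun f => mult x (G.ends f)) e, h, ← add_assoc]
    simp only [mult_map (Option.some_injective _)]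
    simp [mult]
  have d0 : deg (subdiv G e u v) none = 2 := by
    rw [d, ENNReal.tsum_eq_zero.mpr fun f => by split_ifs <;> [rfl; exact mult_zero (by simp)]]
    simp [mult, one_add_one_eq_two]
  refine ⟨fun ⟨x, c⟩ => ⟨some x, d1 x ▸ c⟩, fun ⟨x, c⟩ => ?_⟩
  rcases x with _ | x
  · rw [d0] at c
    norm_cast at c
    omega
  · exact ⟨x, d1 x ▸ c⟩

lemma homeo {G H : MG} (h : Homeo G H) :
    (P G ↔ P H) ∧ ∀ n : ℕ, 3 ≤ n → ((∃ v, n ≤ deg G v) ↔ ∃ v, n ≤ deg H v) := by
  have k : ∀ {G H : MG}, Relation.ReflTransGen Step G H →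
      (P G ↔ P H) ∧ ∀ n : ℕ, 3 ≤ n → ((∃ v, n ≤ deg G v) ↔ ∃ v, n ≤ deg H v) := fun h => by
    induction h with
    | refl => simp
    | tail _ s ih => exact ⟨ih.1.trans (step s).1, fun n c => (ih.2 n c).trans ((step s).2 n c)⟩
  obtain ⟨K, a, b⟩ := h
  exact ⟨(k a).1.symm.trans (k b).1, fun n c => ((k a).2 n c).symm.trans ((k b).2 n c)⟩

def g (p : ℕ × ℕ) : Sym2 (ℕ × ℕ) := s((p.1, min (p.2 - 1) p.1), (p.1, min p.2 p.1))

def C (n : ℕ) : Set (ℕ × ℕ) := {p | p.1 = 0 ∧ p.2 ≤ n + 1 ∨ n + 1 ≤ p.1 ∧ p.2 ≤ p.1 + 1}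

open Finset in
lemma good (n : ℕ) : Good g (C n) := by
  have mv : ∀ F v, v ∈ vs g F ↔ ∃ e ∈ F, v.1 = e.1 ∧ (v.2 = min (e.2 - 1) e.1 ∨ v.2 = min e.2 e.1) :=
    fun F v => by simp only [mem_vs, g, Sym2.mem_iff, Prod.ext_iff, and_or_left]
  have v1 : ∀ i k, i + 1 ≤ k → vs g ({i} ×ˢ range (k + 1)) = {i} ×ˢ range (i + 1) := fun i k c => by
    ext v
    simp only [mv, mem_product, mem_singleton, mem_range]
    exact ⟨by omega, fun c => ⟨v, by omega⟩⟩
  refine ⟨n + 1, {0} ×ˢ range (n + 2), fun i => {i} ×ˢ range (i + 2), ⟨?_, fun B s => ?_⟩,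
    fun i hi => ⟨⟨?_, fun B s => ?_⟩, by simp, ?_⟩, fun i _ j _ c => ?_, fun e => ?_⟩
  · rw [h, v1 0 _ (by omega)]; simp; ring
  · have := card_lt_card s
    rcases B.eq_empty_or_nonempty with rfl | ⟨e, he⟩
    · simp [h, vs]
    · have := card_pos.mpr ⟨_, (mem_vs (g := g)).mpr ⟨e, he, Sym2.out_fst_mem _⟩⟩
      simp only [card_product, card_singleton, card_range, h] at *
      omega
  · rw [h, v1 i _ le_rfl]; simp
  · obtain ⟨x, x1, x2⟩ := exists_of_ssubset s
    have b : ∀ e ∈ B, e.1 = i ∧ e.2 < i + 2 ∧ e.2 ≠ x.2 := fun e he => by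
      have := s.1 he
      simp only [mem_product, mem_singleton, mem_range] at this x1
      exact ⟨this.1, this.2, fun c => x2 ((Prod.ext (by omega) c : e = x) ▸ he)⟩
    simp only [mem_product, mem_singleton, mem_range] at x1
    have := card_le_card_of_injOn (s := B) (t := vs g B)
      (fun e => (i, if e.2 < x.2 then e.2 else e.2 - 1))
      (fun e he => (mv _ _).mpr ⟨e, he, by have := b e he; dsimp only; split_ifs <;> omega⟩)
      fun e he f hf c => by
        have := b e he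
        have := b f hf
        simp only [Prod.ext_iff] at c ⊢
        split_ifs at c <;> omega
    rw [h]
    omega
  · rw [v1 i _ le_rfl, v1 0 _ (by omega)]
    simp only [disjoint_left, mem_product, mem_singleton]
    omega
  · rw [v1 i _ le_rfl, v1 j _ le_rfl]
    simp only [disjoint_left, mem_product, mem_singleton]
    omega
  · simp only [C, Set.mem_ofPred_eq, mem_product, mem_singleton, mem_range]
    exact or_congr (by omega) ⟨fun c => ⟨e.1, by omega⟩, by omega⟩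

def Γ₀ : MG := ⟨ℕ × ℕ, ℕ × ℕ, g⟩

open Finset in
lemma degs (n : ℕ) : (∃ v, (2 * (n + 2) : ℕ) ≤ deg (restrict Γ₀ (C n)) v) ∧
    ∀ v, deg (restrict Γ₀ (C n)) v ≤ (2 * (n + 2) : ℕ) := by
  have d : ∀ v, deg (restrict Γ₀ (C n)) v = ∑' e, (C n).indicator (fun e => mult v.1 (g e)) e :=
    fun v => by
    rw [← _root_.tsum_subtype]
    exact tsum_congr fun e => (mult_map Subtype.val_injective v _).symm.trans
      (congrArg _ ((restrict_emb Γ₀ (C n)).2.2 e).symm)
  refine ⟨⟨⟨(0, 0), (0, 0), Or.inl (by simp), Sym2.mem_mk_left _ _⟩, ?_⟩, fun v => ?_⟩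
  · rw [d]
    refine le_trans (le_of_eq ?_) (ENNReal.sum_le_tsum ({0} ×ˢ range (n + 2)))
    rw [sum_congr rfl (g := fun _ => 2) fun e he => by
      simp only [mem_product, mem_singleton, mem_range] at he
      rw [Set.indicator_of_mem (show e ∈ C n from .inl (by omega))]
      exact (show mult ((0, 0) : ℕ × ℕ) (g e) = 2 by simp [mult, g, he.1, one_add_one_eq_two])]
    simp [mul_comm]
  · have : ∀ w : ℕ × ℕ, ∃ S : Finset (ℕ × ℕ), #S ≤ n + 2 ∧ ∀ e ∈ C n, w ∈ g e → e ∈ S := by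
      rintro ⟨i, j⟩
      simp only [C, g, Set.mem_ofPred_eq, Sym2.mem_iff, Prod.ext_iff]
      by_cases c : i = 0
      · exact ⟨{0} ×ˢ range (n + 2), by simp, fun e a b => by
          simp only [mem_product, mem_singleton, mem_range]; omega⟩
      · exact ⟨{i} ×ˢ {j, j + 1}, by simp, fun e a b => by
          simp only [mem_product, mem_singleton, mem_insert]; omega⟩
    obtain ⟨S, s1, s2⟩ := this v.1
    rw [d, tsum_eq_sum (s := S) fun e c => by
      by_cases k : e ∈ C n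
      · exact (Set.indicator_of_mem k _).trans (mult_zero fun l => c (s2 e k l))
      · exact Set.indicator_of_notMem k _]
    refine (sum_le_card_nsmul _ _ 2 fun e _ => (Set.indicator_le_self _ (fun e => mult v.1 (g e))
      e).trans (mult_le _ _)).trans ?_
    rw [nsmul_eq_mul]
    norm_cast
    omega

theorem result : ∃ P : MG → Prop, (∃ G, P G) ∧ (∀ Γ, IsCircuitFamily (circuits P Γ)) ∧
    (∀ G H, P G → Homeo G H → P H) ∧ (∀ G, P G → ∀ v, ∃ e, v ∈ G.ends e) ∧
    ∃ f : ℕ → MG, (∀ n, P (f n)) ∧ ∀ m n, Relation.EqvGen Homeo (f m) (f n) → m = n := by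
  have p := fun n => restrict_P (Γ := Γ₀) (good n)
  refine ⟨P, ⟨_, p 0⟩, fun Γ => ⟨fun C a D b c => c.ne (((circ _ _).mp a).eq ((circ _ _).mp b) c.1),
    fun C a D b c e he => ?_⟩, fun G H a b => (homeo b).1.mp a, fun G a => a.2, _, p,
      fun m n e => ?_⟩
  · simp only [circ] at a b ⊢
    by_cases s : D ⊆ C
    · exact absurd (b.eq a s).symm c
    · obtain ⟨f, f1, f2⟩ := Set.not_subset.mp s
      exact a.elim b f1 f2 he.2
  have k : ∀ {G H : MG}, Relation.EqvGen Homeo G H →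
      ∀ n : ℕ, 3 ≤ n → ((∃ v, n ≤ deg G v) ↔ ∃ v, n ≤ deg H v) := fun h n c => by
    induction h with
    | rel _ _ h => exact (homeo h).2 n c
    | refl => rfl
    | symm _ _ _ ih => exact ih.symm
    | trans _ _ _ _ _ a b => exact a.trans b
  obtain ⟨v, h1⟩ := (k e _ (by omega)).mp (degs m).1
  obtain ⟨w, h2⟩ := (k e _ (by omega)).mpr (degs n).1
  have h3 := h1.trans ((degs n).2 v)
  have h4 := h2.trans ((degs m).2 w)
  norm_cast at h3 h4
  omega

end Pool.Agent.Results.MP_221c76_co.Exists
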